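import Pool.Agent.N842.TP.Ana

/-!
# Summation by parts over the prime numbers to the right of the critical line
-/

set_option autoImplicit false

namespace Pool.Agent.N842.TQ

open Finset
open Pool.Agent.TH894.NF (pr pr_prime)
open Pool.Agent.N842.HS (pr_mono pi_pr)
open Pool.Agent.N842.TP (pr_two pr_pos pr_ge parts tail)

lemma step2 {β ρ : ℝ} (hβ0 : 0 < β) (hβρ : β < ρ) (hρ : ρ ≤ 1) (j : ℕ) (hj : 1 ≤ j) :
    (((j : ℝ) + 1) ^ β - (j : ℝ) ^ β) * ((j : ℝ) + 1) ^ (-ρ) ≤ 2 * β / (ρ - β) * ((j : ℝ) ^ (β - ρ) - ((j : ℝ) + 1) ^ (β - ρ)) := by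
  have hj0 : (0 : ℝ) < j := by exact_mod_cast hj
  have hj1' : (1 : ℝ) ≤ j := by exact_mod_cast hj
  have hj1 : (0 : ℝ) < (j : ℝ) + 1 := by positivity
  have h1 : ((j : ℝ) + 1) ^ β ≤ (j : ℝ) ^ β * (1 + β / j) := by
    have e1 : ((j : ℝ) + 1) ^ β = (j : ℝ) ^ β * (1 + 1 / j) ^ β := by
      rw [← Real.mul_rpow hj0.le (by positivity)]
      congr 1
      field_simp
    rw [e1]
    apply mul_le_mul_of_nonneg_left _ (by positivity)
    have e2 := rpow_one_add_le_one_add_mul_self (s := 1 / (j : ℝ)) (p := β) (by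
      have : 0 ≤ 1 / (j : ℝ) := by positivity
      linarith) hβ0.le (by linarith)
    refine e2.trans (le_of_eq ?_)
    ring
  have h2 : ((j : ℝ) + 1) ^ (β - ρ) ≤ (j : ℝ) ^ (β - ρ) * (1 - (ρ - β) / ((j : ℝ) + 1)) := by
    have e1 : ((j : ℝ) + 1) ^ (β - ρ) = (j : ℝ) ^ (β - ρ) * (1 + -(1 / ((j : ℝ) + 1))) ^ (ρ - β) := by
      have e3 : 1 + -(1 / ((j : ℝ) + 1)) = (j : ℝ) / ((j : ℝ) + 1) := by
        field_simp
        ring
      rw [e3, Real.div_rpow hj0.le hj1.le, show β - ρ = -(ρ - β) by ring, Real.rpow_neg hj0.le, Real.rpow_neg hj1.le]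
      have : 0 < (j : ℝ) ^ (ρ - β) := by positivity
      field_simp
    rw [e1]
    apply mul_le_mul_of_nonneg_left _ (by positivity)
    have e2 := rpow_one_add_le_one_add_mul_self (s := -(1 / ((j : ℝ) + 1))) (p := ρ - β) (by
      have : 1 / ((j : ℝ) + 1) ≤ 1 := by
        rw [div_le_one hj1]
        linarith
      linarith) (by linarith) (by linarith)
    refine e2.trans (le_of_eq ?_)
    ring
  have h4 : ((j : ℝ) + 1) ^ (-ρ) ≤ (j : ℝ) ^ (-ρ) := Real.rpow_le_rpow_of_nonpos hj0 (by linarith) (by linarith)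
  have hb : 0 < ρ - β := by linarith
  have h5 : (j : ℝ) ^ (β - ρ) = (j : ℝ) ^ β * (j : ℝ) ^ (-ρ) := by
    rw [← Real.rpow_add hj0]
    congr 1
  have h6 : (1 : ℝ) / j ≤ 2 / ((j : ℝ) + 1) := by
    rw [div_le_div_iff₀ hj0 hj1]
    linarith
  calc (((j : ℝ) + 1) ^ β - (j : ℝ) ^ β) * ((j : ℝ) + 1) ^ (-ρ) ≤ ((j : ℝ) ^ β * (β / j)) * (j : ℝ) ^ (-ρ) := by
        apply mul_le_mul _ h4 (by positivity) (by positivity)
        linarith
    _ = (j : ℝ) ^ (β - ρ) * (β * (1 / j)) := by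
        rw [h5]
        ring
    _ ≤ (j : ℝ) ^ (β - ρ) * (β * (2 / ((j : ℝ) + 1))) := by
        apply mul_le_mul_of_nonneg_left _ (by positivity)
        exact mul_le_mul_of_nonneg_left h6 hβ0.le
    _ = 2 * β / (ρ - β) * ((j : ℝ) ^ (β - ρ) * ((ρ - β) / ((j : ℝ) + 1))) := by
        field_simp
    _ ≤ _ := by
        apply mul_le_mul_of_nonneg_left _ (by positivity)
        linarith

/-- **summation by parts over the prime numbers** -/
lemma abel2 {β ρ : ℝ} (hβ0 : 0 < β) (hβρ : β < ρ) (hρ : ρ ≤ 1) (E : ℕ → ℝ) (C₁ : ℝ) (hC₁ : 0 ≤ C₁) (y n : ℕ) (hy : 1 ≤ y)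
    (hE : ∀ u, y ≤ u → u ≤ n → |∑ j ∈ range u, E j| ≤ C₁ * (u : ℝ) ^ β) {s : ℝ} (hs : ρ ≤ s) :
    |∑ j ∈ Ico y n, E j * (pr j : ℝ) ^ (-s)| ≤ (3 + 2 * β / (ρ - β)) * C₁ * (y : ℝ) ^ (β - ρ) := by
  have hy0 : (0 : ℝ) < y := by exact_mod_cast hy
  have hb : 0 < ρ - β := by linarith
  have hyβ : 0 < (y : ℝ) ^ (β - ρ) := by positivity
  have hq : 0 ≤ 2 * β / (ρ - β) := by positivity
  have hρ0 : 0 < ρ := by linarith
  by_cases hyn : y ≤ n
  · obtain ⟨a, ha⟩ : ∃ a : ℕ → ℝ, a = fun j => (pr j : ℝ) ^ (-s) := ⟨_, rfl⟩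
    obtain ⟨S, hS⟩ : ∃ S : ℕ → ℝ, S = fun u => ∑ j ∈ range u, E j := ⟨_, rfl⟩
    have ha0 : ∀ j, 0 ≤ a j := fun j => by
      rw [ha]
      have := pr_pos j
      positivity
    have ha1 : ∀ j, a j ≤ ((j : ℝ) + 1) ^ (-ρ) := by
      intro j
      have h1 : ((j : ℝ) + 1) ≤ pr j := by
        have := pr_two j
        exact_mod_cast (by omega : j + 1 ≤ pr j)
      have h2 : (0 : ℝ) < (j : ℝ) + 1 := by positivity
      rw [ha]
      calc (pr j : ℝ) ^ (-s) ≤ (pr j : ℝ) ^ (-ρ) :=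
            Real.rpow_le_rpow_of_exponent_le (by have := pr_two j; exact_mod_cast (by omega : 1 ≤ pr j)) (by linarith)
        _ ≤ _ := Real.rpow_le_rpow_of_nonpos h2 h1 (by linarith)
    have ha2 : ∀ j, a (j + 1) ≤ a j := by
      intro j
      rw [ha]
      apply Real.rpow_le_rpow_of_nonpos (pr_pos j) _ (by linarith)
      exact_mod_cast (pr_mono (Nat.lt_succ_self j)).le
    have hmono : ∀ u : ℕ, y ≤ u → (u : ℝ) ^ β * a u ≤ (y : ℝ) ^ (β - ρ) := by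
      intro u hu
      have hu0 : (0 : ℝ) < u := by exact_mod_cast (by omega : 0 < u)
      have h1 : (u : ℝ) ^ β * a u ≤ (u : ℝ) ^ β * (u : ℝ) ^ (-ρ) := by
        apply mul_le_mul_of_nonneg_left _ (by positivity)
        exact (ha1 u).trans (Real.rpow_le_rpow_of_nonpos hu0 (by linarith) (by linarith))
      refine h1.trans ?_
      rw [← Real.rpow_add hu0]
      exact Real.rpow_le_rpow_of_nonpos hy0 (by exact_mod_cast hu) (by linarith)
    have e1 : ∑ j ∈ Ico y n, E j * (pr j : ℝ) ^ (-s) = S n * a n - S y * a y + ∑ j ∈ Ico y n, S (j + 1) * (a j - a (j + 1)) := by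
      rw [← parts a S y n hyn]
      refine sum_congr rfl fun j _ => ?_
      rw [hS, ha]
      beta_reduce
      rw [sum_range_succ]
      ring
    have hSn : |S n| ≤ C₁ * (n : ℝ) ^ β := by rw [hS]; exact hE n hyn le_rfl
    have hSy : |S y| ≤ C₁ * (y : ℝ) ^ β := by rw [hS]; exact hE y le_rfl hyn
    have b1 : |S n * a n| ≤ C₁ * (y : ℝ) ^ (β - ρ) := by
      rw [abs_mul, abs_of_nonneg (ha0 n)]
      calc |S n| * a n ≤ C₁ * (n : ℝ) ^ β * a n := mul_le_mul_of_nonneg_right hSn (ha0 n)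
        _ = C₁ * ((n : ℝ) ^ β * a n) := by ring
        _ ≤ _ := mul_le_mul_of_nonneg_left (hmono n hyn) hC₁
    have b2 : |S y * a y| ≤ C₁ * (y : ℝ) ^ (β - ρ) := by
      rw [abs_mul, abs_of_nonneg (ha0 y)]
      calc |S y| * a y ≤ C₁ * (y : ℝ) ^ β * a y := mul_le_mul_of_nonneg_right hSy (ha0 y)
        _ = C₁ * ((y : ℝ) ^ β * a y) := by ring
        _ ≤ _ := mul_le_mul_of_nonneg_left (hmono y le_rfl) hC₁
    have b3 : |∑ j ∈ Ico y n, S (j + 1) * (a j - a (j + 1))| ≤ C₁ * ∑ j ∈ Ico y n, ((j + 1 : ℕ) : ℝ) ^ β * (a j - a (j + 1)) := by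
      refine (abs_sum_le_sum_abs _ _).trans ?_
      rw [mul_sum]
      refine sum_le_sum fun j hj => ?_
      rw [mem_Ico] at hj
      have h1 : 0 ≤ a j - a (j + 1) := by
        have := ha2 j
        linarith
      rw [abs_mul, abs_of_nonneg h1, ← mul_assoc]
      apply mul_le_mul_of_nonneg_right _ h1
      rw [hS]
      exact hE (j + 1) (by omega) (by omega)
    have b4 := parts a (fun u : ℕ => (u : ℝ) ^ β) y n hyn
    have b5 : ∑ j ∈ Ico y n, (((j + 1 : ℕ) : ℝ) ^ β - (j : ℝ) ^ β) * a j ≤ 2 * β / (ρ - β) * (y : ℝ) ^ (β - ρ) := by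
      have h1 : ∀ j ∈ Ico y n, (((j + 1 : ℕ) : ℝ) ^ β - (j : ℝ) ^ β) * a j ≤ 2 * β / (ρ - β) * ((j : ℝ) ^ (β - ρ) - ((j : ℝ) + 1) ^ (β - ρ)) := by
        intro j hj
        rw [mem_Ico] at hj
        refine le_trans ?_ (step2 hβ0 hβρ hρ j (by omega))
        push_cast
        apply mul_le_mul_of_nonneg_left (ha1 j)
        have : (j : ℝ) ^ β ≤ ((j : ℝ) + 1) ^ β := Real.rpow_le_rpow (Nat.cast_nonneg _) (by linarith) hβ0.le
        linarith
      refine (sum_le_sum h1).trans ?_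
      rw [← mul_sum]
      apply mul_le_mul_of_nonneg_left _ hq
      have h2 : ∀ n : ℕ, y ≤ n → ∑ j ∈ Ico y n, ((j : ℝ) ^ (β - ρ) - ((j : ℝ) + 1) ^ (β - ρ)) = (y : ℝ) ^ (β - ρ) - (n : ℝ) ^ (β - ρ) := by
        intro n hn
        induction n, hn using Nat.le_induction with
        | base => simp
        | succ n hn ih =>
          rw [sum_Ico_succ_top hn, ih]
          push_cast
          ring
      have h3 : ∀ n : ℕ, y ≤ n → ∑ j ∈ Ico y n, ((j : ℝ) ^ (β - ρ) - ((j : ℝ) + 1) ^ (β - ρ)) ≤ (y : ℝ) ^ (β - ρ) := by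
        intro n hn
        rw [h2 n hn]
        have : 0 ≤ (n : ℝ) ^ (β - ρ) := by positivity
        linarith
      exact h3 n hyn
    have b6 : 0 ≤ (n : ℝ) ^ β * a n := mul_nonneg (by positivity) (ha0 n)
    have b7 := hmono y le_rfl
    have b8 : ∑ j ∈ Ico y n, ((j + 1 : ℕ) : ℝ) ^ β * (a j - a (j + 1)) ≤ (1 + 2 * β / (ρ - β)) * (y : ℝ) ^ (β - ρ) := by
      linarith
    have b9 := mul_le_mul_of_nonneg_left b8 hC₁
    rw [e1]
    have b10 := abs_add_le (S n * a n - S y * a y) (∑ j ∈ Ico y n, S (j + 1) * (a j - a (j + 1)))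
    have b11 := abs_sub (S n * a n) (S y * a y)
    calc |S n * a n - S y * a y + ∑ j ∈ Ico y n, S (j + 1) * (a j - a (j + 1))| ≤
        C₁ * (y : ℝ) ^ (β - ρ) + C₁ * (y : ℝ) ^ (β - ρ) + C₁ * ((1 + 2 * β / (ρ - β)) * (y : ℝ) ^ (β - ρ)) := by linarith
      _ = _ := by ring
  · rw [Ico_eq_empty (by omega), sum_empty, abs_zero]
    positivity

/-- the version for complex numbers -/
lemma abelC {β ρ : ℝ} (hβ0 : 0 < β) (hβρ : β < ρ) (hρ : ρ ≤ 1) (E : ℕ → ℂ) (C₁ : ℝ) (hC₁ : 0 ≤ C₁) (y n : ℕ) (hy : 1 ≤ y)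
    (hE : ∀ u, y ≤ u → u ≤ n → ‖∑ j ∈ range u, E j‖ ≤ C₁ * (u : ℝ) ^ β) {s : ℝ} (hs : ρ ≤ s) :
    ‖∑ j ∈ Ico y n, E j * (((pr j : ℝ) ^ (-s) : ℝ) : ℂ)‖ ≤ 2 * ((3 + 2 * β / (ρ - β)) * C₁ * (y : ℝ) ^ (β - ρ)) := by
  have h1 := abel2 hβ0 hβρ hρ (fun j => (E j).re) C₁ hC₁ y n hy (fun u hu1 hu2 => by
    refine le_trans ?_ (hE u hu1 hu2)
    rw [← Complex.re_sum]
    exact Complex.abs_re_le_norm _) hs
  have h2 := abel2 hβ0 hβρ hρ (fun j => (E j).im) C₁ hC₁ y n hy (fun u hu1 hu2 => by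
    refine le_trans ?_ (hE u hu1 hu2)
    rw [← Complex.im_sum]
    exact Complex.abs_im_le_norm _) hs
  have e1 : (∑ j ∈ Ico y n, E j * (((pr j : ℝ) ^ (-s) : ℝ) : ℂ)).re = ∑ j ∈ Ico y n, (E j).re * (pr j : ℝ) ^ (-s) := by
    rw [Complex.re_sum]
    exact sum_congr rfl fun j _ => Complex.re_mul_ofReal _ _
  have e2 : (∑ j ∈ Ico y n, E j * (((pr j : ℝ) ^ (-s) : ℝ) : ℂ)).im = ∑ j ∈ Ico y n, (E j).im * (pr j : ℝ) ^ (-s) := by
    rw [Complex.im_sum]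
    exact sum_congr rfl fun j _ => Complex.im_mul_ofReal _ _
  refine (Complex.norm_le_abs_re_add_abs_im _).trans ?_
  rw [e1, e2]
  linarith

/-- the number of the prime numbers -/
lemma many : ∃ Y₁ : ℕ, ∀ Y : ℕ, Y₁ ≤ Y → Real.sqrt Y ≤ (Nat.primeCounting Y : ℝ) := by
  have h1 : Filter.Tendsto (fun x : ℝ => Real.log x / x ^ (1 / 2 : ℝ)) Filter.atTop (nhds 0) := by
    have := (isLittleO_log_rpow_atTop (by norm_num : (0 : ℝ) < 1 / 2)).tendsto_div_nhds_zero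
    exact this
  have h2 := h1.comp tendsto_natCast_atTop_atTop
  have h3 := h2.eventually (gt_mem_nhds (by norm_num : (0 : ℝ) < 1 / 4))
  obtain ⟨Y₀, hY₀⟩ := Filter.eventually_atTop.1 h3
  refine ⟨max Y₀ 100, fun Y hY => ?_⟩
  have hY1 : Y₀ ≤ Y := le_trans (le_max_left _ _) hY
  have hY2 : 100 ≤ Y := le_trans (le_max_right _ _) hY
  have hY0 : (0 : ℝ) < Y := by exact_mod_cast (by omega : 0 < Y)
  have hY100 : (100 : ℝ) ≤ Y := by exact_mod_cast hY2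
  have h4 := hY₀ Y hY1
  simp only [Function.comp_apply] at h4
  rw [← Real.sqrt_eq_rpow] at h4
  have hs : 0 < Real.sqrt Y := Real.sqrt_pos.2 hY0
  rw [div_lt_iff₀ hs] at h4
  have hl : 0 < Real.log Y := Real.log_pos (by linarith)
  have h5 := Chebyshev.psi_ge Y
  have h6 := Chebyshev.psi_le_primeCounting_mul_log Y
  have h7 := Real.log_two_gt_d9
  have h8 : Real.log ((Y : ℝ) + 1) ≤ Real.log Y + 1 := by
    have h9 : Real.log ((Y : ℝ) + 1) ≤ Real.log (2 * Y) := Real.log_le_log (by positivity) (by linarith)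
    rw [Real.log_mul (by norm_num) hY0.ne'] at h9
    have := Real.log_two_lt_d9
    linarith
  have hss : Real.sqrt Y * Real.sqrt Y = Y := Real.mul_self_sqrt hY0.le
  have hs10 : 10 ≤ Real.sqrt Y := by
    rw [Real.le_sqrt (by norm_num) hY0.le]
    linarith
  by_contra hcon
  push Not at hcon
  have h9 : (Nat.primeCounting Y : ℝ) * Real.log Y ≤ Real.sqrt Y * Real.log Y := mul_le_mul_of_nonneg_right hcon.le hl.le
  have h10 : Real.sqrt Y * Real.log Y ≤ Real.sqrt Y * (1 / 4 * Real.sqrt Y) := mul_le_mul_of_nonneg_left h4.le hs.le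
  nlinarith

end Pool.Agent.N842.TQ
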