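import Pool.Agent.N842.TQ.Od

/-!
# The law of the sums of the twisted traces for almost all curves
-/

set_option autoImplicit false

namespace Pool.Agent.N842.TQ

open Finset NumberField IsDedekindDomain
open Pool.Agent.N842.SQ
open Pool.Agent.N842.TP
open Pool.Agent.N842.ST (kap kap_nonneg kap_le)
open Pool.Agent.N842.HS (hv VT mem_VT res_char prime_above norm_card absNorm_hv hom_finite hom_card cf sum_deg1 factNth genRW)
open Pool.Agent.TH894.NF (pr pr_prime)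
open Pool.Agent.Y57.FD (digit exceptions)

attribute [local instance] rsFin exFin

/-- the real or the imaginary part -/
def part (κ : Bool) (z : ℂ) : ℝ := if κ then z.re else z.im

lemma part_le (κ : Bool) (z : ℂ) : |part κ z| ≤ ‖z‖ := by
  unfold part
  split_ifs
  · exact Complex.abs_re_le_norm z
  · exact Complex.abs_im_le_norm z

lemma part_sum (κ : Bool) {ι : Type} (s : Finset ι) (f : ι → ℂ) : part κ (∑ i ∈ s, f i) = ∑ i ∈ s, part κ (f i) := by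
  unfold part
  split_ifs
  · exact Complex.re_sum _ _
  · exact Complex.im_sum _ _

lemma part_mul (κ : Bool) (z : ℂ) (t : ℝ) : part κ (z * (t : ℂ)) = part κ z * t := by
  unfold part
  split_ifs
  · exact Complex.re_mul_ofReal _ _
  · exact Complex.im_mul_ofReal _ _

lemma norm_le_parts (z : ℂ) (B : ℝ) (h : ∀ κ, |part κ z| ≤ B) : ‖z‖ ≤ 2 * B := by
  have h1 := h true
  have h2 := h false
  unfold part at h1 h2
  simp only [if_true, Bool.false_eq_true, if_false] at h1 h2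
  have h3 := Complex.norm_le_abs_re_add_abs_im z
  linarith

section
variable {K : Type} [Field K] [NumberField K]

/-- the weights -/
noncomputable def wgt (x : ℕ) (z : (HeightOneSpectrum (𝓞 K) → ℂ) × ℤ × Bool) (k : ℕ)
    (φ : (e : Fin 1) → (𝓞 K →+* ZMod (Nat.nth Nat.Prime (k + e)))) : ℝ := part z.2.2 (ch z.1 ((z.2.1 : ℝ) / (x : ℝ) ^ 2) (hv (φ 0)))

/-- the sets of weights -/
noncomputable def WS (Ψ : Set (HeightOneSpectrum (𝓞 K) → ℂ)) (B y x : ℕ) :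
    Set ((k : ℕ) → ((e : Fin 1) → (𝓞 K →+* ZMod (Nat.nth Nat.Prime (k + e)))) → ℝ) :=
  open Classical in if y ≤ x ∧ 2 ≤ x then wgt x '' (Ψ ×ˢ ((↑(Finset.Icc (-((x : ℤ) ^ (B + 2))) ((x : ℤ) ^ (B + 2))) : Set ℤ) ×ˢ (Set.univ : Set Bool))) else ∅

lemma WS_card (Ψ : Set (HeightOneSpectrum (𝓞 K) → ℂ)) (hΨ : Ψ.Finite) (B y : ℕ) (hΨ2 : Ψ.ncard ≤ y ^ B) (x : ℕ) :
    (WS Ψ B y x).Finite ∧ (WS Ψ B y x).ncard ≤ x ^ (2 * B + 5) := by
  classical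
  unfold WS
  split_ifs with h
  · have hfin : (Ψ ×ˢ ((↑(Finset.Icc (-((x : ℤ) ^ (B + 2))) ((x : ℤ) ^ (B + 2))) : Set ℤ) ×ˢ (Set.univ : Set Bool))).Finite :=
      hΨ.prod ((Finset.finite_toSet _).prod Set.finite_univ)
    refine ⟨hfin.image _, (Set.ncard_image_le hfin).trans ?_⟩
    rw [Set.ncard_prod, Set.ncard_prod, Set.ncard_univ, Nat.card_eq_fintype_card, Fintype.card_bool, Set.ncard_coe_finset, Int.card_Icc]
    have h1 : ((x : ℤ) ^ (B + 2) + 1 - -((x : ℤ) ^ (B + 2))).toNat = 2 * x ^ (B + 2) + 1 := by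
      have h2 : (x : ℤ) ^ (B + 2) + 1 - -((x : ℤ) ^ (B + 2)) = ((2 * x ^ (B + 2) + 1 : ℕ) : ℤ) := by
        push_cast
        ring
      rw [h2, Int.toNat_natCast]
    rw [h1]
    have h3 : 1 ≤ x ^ (B + 2) := Nat.one_le_pow _ _ (by omega)
    have h4 : 8 ≤ x ^ 3 := by
      calc 8 = 2 ^ 3 := by norm_num
        _ ≤ x ^ 3 := Nat.pow_le_pow_left h.2 3
    calc Ψ.ncard * ((2 * x ^ (B + 2) + 1) * 2) ≤ x ^ B * (x ^ 3 * x ^ (B + 2)) := by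
          apply Nat.mul_le_mul (hΨ2.trans (Nat.pow_le_pow_left h.1 B))
          nlinarith
      _ = x ^ (2 * B + 5) := by ring
  · exact ⟨Set.finite_empty, by rw [Set.ncard_empty]; exact Nat.zero_le _⟩

lemma WS_le (Ψ : Set (HeightOneSpectrum (𝓞 K) → ℂ)) (hΨ1 : ∀ ψ ∈ Ψ, ∀ v, ‖ψ v‖ ≤ 1) (B y x : ℕ)
    (w : (k : ℕ) → ((e : Fin 1) → (𝓞 K →+* ZMod (Nat.nth Nat.Prime (k + e)))) → ℝ) (hw : w ∈ WS Ψ B y x) (k : ℕ)
    (φ : (e : Fin 1) → (𝓞 K →+* ZMod (Nat.nth Nat.Prime (k + e)))) : |w k φ| ≤ 1 := by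
  classical
  unfold WS at hw
  split_ifs at hw with h
  · obtain ⟨z, hz, rfl⟩ := hw
    exact (part_le _ _).trans (ch_le (hΨ1 z.1 hz.1) _ _)
  · exact absurd hw (Set.notMem_empty _)

lemma WS_mem (Ψ : Set (HeightOneSpectrum (𝓞 K) → ℂ)) (B y x : ℕ) (hyx : y ≤ x) (hx : 2 ≤ x) (ψ : HeightOneSpectrum (𝓞 K) → ℂ) (hψ : ψ ∈ Ψ)
    (j : ℤ) (hj : |j| ≤ (x : ℤ) ^ (B + 2)) (κ : Bool) : wgt x (ψ, j, κ) ∈ WS Ψ B y x := by
  classical
  unfold WS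
  rw [if_pos ⟨hyx, hx⟩]
  refine ⟨(ψ, j, κ), ⟨hψ, ?_, Set.mem_univ _⟩, rfl⟩
  rw [Finset.coe_Icc, Set.mem_Icc]
  exact abs_le.1 hj

variable {N : ℕ} (n : Fin N → ℕ)

/-- the sums of the traces on the grid -/
lemma grid_bound (l : ℕ) (hl : l.Prime) {g D : ℕ} (ω : Fin g → 𝓞 K) (d : ℕ) (hd : Odd d) (m : Fin (N * D * g) → ℕ) (x : ℕ)
    (χ : HeightOneSpectrum (𝓞 K) → ℂ) (κ : Bool) (Z : ℝ) (hZ : 0 ≤ Z)
    (h : ∀ θ ∈ Im n, |∑ k ∈ range x, ∑ᶠ φ : (e : Fin 1) → (𝓞 K →+* ZMod (Nat.nth Nat.Prime (k + e))), part κ (χ (hv (φ 0))) *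
      (GG l N D θ (Nat.nth Nat.Prime (k + (0 : Fin 1))) (fun j => φ 0 (cf ω m j)) - MG l N θ (Nat.nth Nat.Prime (k + (0 : Fin 1))))| ≤ Z) :
    |part κ (∑ k ∈ range x, Eo n l d χ (cf (D := N * D) ω m) k)| ≤ (∑ θ ∈ Im n, |cfm n d θ|) * Z := by
  classical
  have hft : ∀ k : ℕ, Nonempty (Fintype ((e : Fin 1) → (𝓞 K →+* ZMod (Nat.nth Nat.Prime (k + e))))) := fun k => by
    have := tup_fin K k
    exact ⟨Fintype.ofFinite _⟩
  have hft2 : ∀ k : ℕ, Fintype ((e : Fin 1) → (𝓞 K →+* ZMod (Nat.nth Nat.Prime (k + e)))) := fun k => (hft k).some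
  have e1 : part κ (∑ k ∈ range x, Eo n l d χ (cf (D := N * D) ω m) k) = ∑ θ ∈ Im n, cfm n d θ *
      ∑ k ∈ range x, ∑ᶠ φ : (e : Fin 1) → (𝓞 K →+* ZMod (Nat.nth Nat.Prime (k + e))), part κ (χ (hv (φ 0))) *
      (GG l N D θ (Nat.nth Nat.Prime (k + (0 : Fin 1))) (fun j => φ 0 (cf ω m j)) - MG l N θ (Nat.nth Nat.Prime (k + (0 : Fin 1)))) := by
    simp only [finsum_eq_sum_of_fintype, mul_sum]
    rw [part_sum, sum_comm]
    refine sum_congr rfl fun k _ => ?_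
    unfold Eo
    rw [finsum_eq_sum_of_fintype, part_sum, sum_comm]
    refine sum_congr rfl fun φ _ => ?_
    rw [part_mul, To_hv, mul_sum]
    refine sum_congr rfl fun θ _ => ?_
    by_cases h0 : cfm n d θ = 0
    · rw [h0]
      ring
    · have h1 : MG l N θ (Nat.nth Nat.Prime (k + (0 : Fin 1))) = 0 := by
        apply MG_odd
        rw [cfm_parity n d θ h0, Nat.not_even_iff_odd]
        exact hd
      rw [h1]
      ring
  rw [e1, sum_mul]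
  refine (abs_sum_le_sum_abs _ _).trans (sum_le_sum fun θ hθ => ?_)
  rw [abs_mul]
  exact mul_le_mul_of_nonneg_left (h θ hθ) (abs_nonneg _)

/-- the sum of the traces for neighbouring twists -/
lemma Eo_diff (l : ℕ) (hl : l.Prime) {D : ℕ} (hD : Nat.Coprime D l) (d : ℕ) {ψ : HeightOneSpectrum (𝓞 K) → ℂ} (hψ : ∀ v, ‖ψ v‖ ≤ 1)
    {nK : ℕ} (hnK : ∀ (p : ℕ) [Fact p.Prime], Nat.card (𝓞 K →+* ZMod p) ≤ nK) (c : Fin (N * D) → 𝓞 K) (x : ℕ) (hx : 1 ≤ x) (τ t : ℝ)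
    (ht : |τ - t| ≤ 1 / (x : ℝ) ^ 2) :
    ‖∑ j ∈ range x, Eo n l d (ch ψ τ) c j - ∑ j ∈ range x, Eo n l d (ch ψ t) c j‖ ≤ nK * BD n l D d := by
  have hx0 : (0 : ℝ) < x := by exact_mod_cast (by omega : 0 < x)
  have hBD := BD_nonneg n l hl D d
  have h1 : ∀ j ∈ range x, ‖Eo n l d (ch ψ τ) c j - Eo n l d (ch ψ t) c j‖ ≤ nK * (1 / x * BD n l D d) := by
    intro j hj
    rw [mem_range] at hj
    have := tup_fin K j
    have hF : Fintype ((e : Fin 1) → (𝓞 K →+* ZMod (Nat.nth Nat.Prime (j + e)))) := Fintype.ofFinite _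
    have e1 : Eo n l d (ch ψ τ) c j - Eo n l d (ch ψ t) c j = ∑ᶠ φ : (e : Fin 1) → (𝓞 K →+* ZMod (Nat.nth Nat.Prime (j + e))),
        (ch ψ τ (hv (φ 0)) - ch ψ t (hv (φ 0))) * (To n l d 1 (hv (φ 0)) c : ℂ) := by
      unfold Eo
      rw [finsum_eq_sum_of_fintype, finsum_eq_sum_of_fintype, finsum_eq_sum_of_fintype, ← sum_sub_distrib]
      exact sum_congr rfl fun φ _ => by ring
    rw [e1]
    apply tup_bound hnK j _ _ (by positivity)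
    intro φ
    rw [norm_mul, Complex.norm_real, Real.norm_eq_abs]
    apply mul_le_mul _ (To_le n l hl hD d 1 one_ne_zero _ c) (abs_nonneg _) (by positivity)
    refine (ch_diff hψ τ t _).trans ?_
    have h2 : Real.log ((Ideal.absNorm (hv (φ 0)).asIdeal : ℕ) : ℝ) ≤ x := by
      rw [absNorm_hv]
      exact log_up j x hj
    have h3 : 0 ≤ Real.log ((Ideal.absNorm (hv (φ 0)).asIdeal : ℕ) : ℝ) := Real.log_natCast_nonneg _
    calc |τ - t| * Real.log ((Ideal.absNorm (hv (φ 0)).asIdeal : ℕ) : ℝ) ≤ 1 / (x : ℝ) ^ 2 * x := mul_le_mul ht h2 h3 (by positivity)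
      _ = 1 / x := by
          field_simp
  rw [← sum_sub_distrib]
  refine (norm_sum_le _ _).trans ((sum_le_sum h1).trans (le_of_eq ?_))
  rw [sum_const, card_range, nsmul_eq_mul]
  field_simp

open Classical in
/-- **the sums of the twisted traces for almost all products** -/
theorem law_odd (K : Type) [Field K] [NumberField K] (b g l N D : ℕ) (ω : Fin g → 𝓞 K) (hω : (1 : 𝓞 K) ∈ Submodule.span ℤ (Set.range ω))
    (hl : l.Prime) (hD : Nat.Coprime D l) (hb : 2 ≤ b) (hd : 1 ≤ N * D * g)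
    (n : Fin N → ℕ) (hn : ∀ c, n c ≤ D) (δ : ℝ) (hδ : 0 < δ) (A B I : ℕ) :
    ∃ c : ℝ, 0 < c ∧ ∃ C₁ : ℝ, 0 ≤ C₁ ∧ ∃ y₀ : ℕ, ∀ (L r : Fin (N * D * g) → ℕ) (y : ℕ), (∀ i, 2 * r i ≤ L i) → y₀ ≤ y →
    ∀ N' : Fin (N * D * g) → ℕ, (∀ i, N' i < b ^ L i) →
    ∀ f : Fin (N * D * g) → ℕ → ℕ, (∀ i j, f i j < b ∧ f i j ≠ digit b j (N' i)) →
    ∀ Ψ : Set (HeightOneSpectrum (𝓞 K) → ℂ), Ψ.Finite → Ψ.ncard ≤ y ^ B → (∀ ψ ∈ Ψ, ∀ v, ‖ψ v‖ ≤ 1) →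
    ∀ E : (Fin (N * D * g) → ℕ) → Prop,
    (∀ m : Fin (N * D * g) → ℕ, (∀ x : ℕ, y ≤ x → (∀ i, (x : ℝ) ≤ Real.exp (c * r i)) → ∀ d ≤ I, Odd d → ∀ ψ ∈ Ψ, ∀ τ : ℝ, |τ| ≤ (x : ℝ) ^ B →
      ‖∑ j ∈ range x, Eo n l d (ch ψ τ) (cf (D := N * D) ω m) j‖ ≤ C₁ * (x : ℝ) ^ (1 / 2 + δ)) → E m) →
    (exceptions b L r N' f E : ℝ) ≤ 1 / (y : ℝ) ^ A * ∏ i, ((L i).choose (r i) : ℝ) := by
  obtain ⟨nK, hnK⟩ := hom_card (𝓞 K)
  have hbt : ∀ θ : Fin N → ℕ, 0 ≤ ∏ c, B0 l D ^ θ c + ∏ c, nm (l : ℝ) l (θ c) := fun θ =>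
    add_nonneg (by have := B0_ge l hl D; positivity) (prod_nonneg fun c _ => nm_nonneg _ _ (Nat.cast_nonneg _) (Nat.cast_nonneg _) _)
  have hB := B0_ge l hl D
  obtain ⟨S, hS⟩ : ∃ S : ℝ, S = ∑ d ∈ range (I + 1), ((∑ θ ∈ Im n, |cfm n d θ|) + BD n l D d) := ⟨_, rfl⟩
  have hS1 : ∀ d, 0 ≤ (∑ θ ∈ Im n, |cfm n d θ|) + BD n l D d := fun d =>
    add_nonneg (sum_nonneg fun θ _ => abs_nonneg _) (BD_nonneg n l hl D d)
  have hS0 : 0 ≤ S := by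
    rw [hS]
    exact sum_nonneg fun d _ => hS1 d
  have hSd : ∀ d ≤ I, (∑ θ ∈ Im n, |cfm n d θ|) ≤ S ∧ BD n l D d ≤ S := by
    intro d hd
    have h1 : (∑ θ ∈ Im n, |cfm n d θ|) + BD n l D d ≤ S := by
      rw [hS]
      exact single_le_sum (f := fun d => (∑ θ ∈ Im n, |cfm n d θ|) + BD n l D d) (fun d _ => hS1 d) (mem_range.2 (by omega))
    have h2 := BD_nonneg n l hl D d
    have h3 : 0 ≤ ∑ θ ∈ Im n, |cfm n d θ| := sum_nonneg fun θ _ => abs_nonneg _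
    constructor <;> linarith
  obtain ⟨c, hc, y₀, h⟩ := genRW (R := 𝓞 K) b g (N * D) 1 ω hω hb hd le_rfl δ hδ A (2 * B + 5) (Im n)
    (fun θ p _ u => GG l N D θ p u) (fun θ p => MG l N θ p) 0 le_rfl
    (fun θ _ => ⟨∏ c, B0 l D ^ θ c + ∏ c, nm l l (θ c), hbt θ, fun p hp => by
      rw [Real.rpow_zero, mul_one]
      constructor
      · intro u
        have h1 := GG_le l hl N D hD θ p u
        have h2 : 0 ≤ ∏ c, nm (l : ℝ) l (θ c) := prod_nonneg fun c _ => nm_nonneg _ _ (Nat.cast_nonneg _) (Nat.cast_nonneg _) _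
        linarith
      · have h1 := MG_le l hl N θ p
        have h2 : 0 ≤ ∏ c : Fin N, B0 l D ^ θ c := by positivity
        linarith⟩)
    (fun θ hθ => mean_all l hl N D hD θ (fun c => ((mem_Im n θ).1 hθ c).trans (hn c)))
  refine ⟨c, hc, 2 * (S * Real.sqrt (nK + 1)) + nK * S, by positivity, y₀ + 2, fun L r y hrL hy N' hN' f hf Ψ hΨ hΨ2 hΨ1 E hE => ?_⟩
  refine h L r y hrL (by omega) N' hN' f hf (WS Ψ B y) (WS_card Ψ hΨ B y hΨ2) (fun x w hw k φ => WS_le Ψ hΨ1 B y x w hw k φ) E fun m hm =>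
    hE m fun x hyx hxr d hdI hdo ψ hψ τ hτ => ?_
  have hx2 : 2 ≤ x := by omega
  have hx0 : (0 : ℝ) < x := by exact_mod_cast (by omega : 0 < x)
  have hx1' : (1 : ℝ) ≤ x := by exact_mod_cast (by omega : 1 ≤ x)
  -- the point of the grid
  obtain ⟨j, hj⟩ : ∃ j : ℤ, j = ⌊τ * (x : ℝ) ^ 2⌋ := ⟨_, rfl⟩
  have hj1 : (j : ℝ) ≤ τ * (x : ℝ) ^ 2 := by rw [hj]; exact Int.floor_le _
  have hj2 : τ * (x : ℝ) ^ 2 < j + 1 := by rw [hj]; exact Int.lt_floor_add_one _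
  have hjx : |j| ≤ (x : ℤ) ^ (B + 2) := by
    have h1 := abs_le.1 hτ
    have h2 : τ * (x : ℝ) ^ 2 ≤ (x : ℝ) ^ (B + 2) := by
      rw [pow_add]
      exact mul_le_mul_of_nonneg_right h1.2 (by positivity)
    have h3 : -(x : ℝ) ^ (B + 2) ≤ τ * (x : ℝ) ^ 2 := by
      rw [pow_add]
      have := mul_le_mul_of_nonneg_right h1.1 (by positivity : (0 : ℝ) ≤ (x : ℝ) ^ 2)
      linarith
    rw [abs_le]
    constructor
    · rw [hj]
      apply Int.le_floor.2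
      push_cast
      exact h3
    · have h4 : (j : ℝ) ≤ (x : ℝ) ^ (B + 2) := hj1.trans h2
      exact_mod_cast h4
  have hτj : |τ - (j : ℝ) / (x : ℝ) ^ 2| ≤ 1 / (x : ℝ) ^ 2 := by
    have h1 : τ - (j : ℝ) / (x : ℝ) ^ 2 = (τ * (x : ℝ) ^ 2 - j) / (x : ℝ) ^ 2 := by
      field_simp
    rw [h1, abs_div, abs_of_pos (by positivity : (0 : ℝ) < (x : ℝ) ^ 2)]
    apply div_le_div_of_nonneg_right _ (by positivity)
    rw [abs_le]
    constructor <;> linarith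
  obtain ⟨hSd1, hSd2⟩ := hSd d hdI
  -- the law on the grid
  have hgrid : ∀ κ, |part κ (∑ k ∈ range x, Eo n l d (ch ψ ((j : ℝ) / (x : ℝ) ^ 2)) (cf (D := N * D) ω m) k)| ≤
      S * (Real.sqrt (nK + 1) * (x : ℝ) ^ (1 / 2 + δ)) := by
    intro κ
    have hZ0 : 0 ≤ Real.sqrt (nK + 1) * (x : ℝ) ^ (1 / 2 + δ) := by positivity
    refine (grid_bound n l hl ω d hdo m x (ch ψ ((j : ℝ) / (x : ℝ) ^ 2)) κ (Real.sqrt (nK + 1) * (x : ℝ) ^ (1 / 2 + δ)) hZ0 ?_).trans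
      (mul_le_mul_of_nonneg_right hSd1 hZ0)
    intro θ hθ
    have h1 := hm x hyx hxr (wgt x (ψ, j, κ)) (WS_mem Ψ B y x hyx hx2 ψ hψ j hjx κ) (fun _ => θ) (fun _ => hθ)
    simp only [Fin.prod_univ_one] at h1
    have h2 : Real.sqrt (max 1 (∑ k ∈ range x, ∑ᶠ φ : (e : Fin 1) → (𝓞 K →+* ZMod (Nat.nth Nat.Prime (k + e))), wgt x (ψ, j, κ) k φ ^ 2)) ≤
        Real.sqrt ((nK + 1) * x) := by
      apply Real.sqrt_le_sqrt
      apply max_le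
      · have : (0 : ℝ) ≤ nK := Nat.cast_nonneg _
        nlinarith
      · have h3 : ∀ k ∈ range x, ∑ᶠ φ : (e : Fin 1) → (𝓞 K →+* ZMod (Nat.nth Nat.Prime (k + e))), wgt x (ψ, j, κ) k φ ^ 2 ≤ nK := by
          intro k _
          have := tup_fin K k
          have hF : Fintype ((e : Fin 1) → (𝓞 K →+* ZMod (Nat.nth Nat.Prime (k + e)))) := Fintype.ofFinite _
          rw [finsum_eq_sum_of_fintype]
          have h4 : ∀ φ ∈ (univ : Finset ((e : Fin 1) → (𝓞 K →+* ZMod (Nat.nth Nat.Prime (k + e))))), wgt x (ψ, j, κ) k φ ^ 2 ≤ 1 := by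
            intro φ _
            have h5 : |wgt x (ψ, j, κ) k φ| ≤ 1 := (part_le _ _).trans (ch_le (hΨ1 ψ hψ) _ _)
            rw [← sq_abs]
            exact pow_le_one₀ (abs_nonneg _) h5
          refine (sum_le_sum h4).trans ?_
          rw [sum_const, card_univ, nsmul_eq_mul, mul_one, ← Nat.card_eq_fintype_card]
          exact_mod_cast tup_card K nK hnK k
        refine (sum_le_sum h3).trans ?_
        rw [sum_const, card_range, nsmul_eq_mul]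
        nlinarith
    have h3 : Real.sqrt ((nK + 1) * x) * (x : ℝ) ^ (((1 : ℕ) : ℝ) * 0 + δ) = Real.sqrt (nK + 1) * (x : ℝ) ^ (1 / 2 + δ) := by
      rw [Real.sqrt_mul (by positivity), Nat.cast_one, one_mul, zero_add, mul_assoc, Real.sqrt_eq_rpow (x : ℝ), ← Real.rpow_add hx0]
    rw [← h3]
    refine le_trans ?_ (mul_le_mul_of_nonneg_right h2 (by positivity))
    exact h1
  have hfin := norm_le_parts _ _ hgrid
  have hdiff := Eo_diff n l hl hD d (hΨ1 ψ hψ) hnK (cf (D := N * D) ω m) x (by omega) τ ((j : ℝ) / (x : ℝ) ^ 2) hτj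
  have hx1δ : 1 ≤ (x : ℝ) ^ (1 / 2 + δ) := Real.one_le_rpow hx1' (by positivity)
  have h5 : ‖∑ k ∈ range x, Eo n l d (ch ψ τ) (cf (D := N * D) ω m) k‖ ≤
      ‖∑ k ∈ range x, Eo n l d (ch ψ ((j : ℝ) / (x : ℝ) ^ 2)) (cf (D := N * D) ω m) k‖ +
      ‖∑ k ∈ range x, Eo n l d (ch ψ τ) (cf (D := N * D) ω m) k - ∑ k ∈ range x, Eo n l d (ch ψ ((j : ℝ) / (x : ℝ) ^ 2)) (cf (D := N * D) ω m) k‖ := by
    have := norm_add_le (∑ k ∈ range x, Eo n l d (ch ψ ((j : ℝ) / (x : ℝ) ^ 2)) (cf (D := N * D) ω m) k)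
      (∑ k ∈ range x, Eo n l d (ch ψ τ) (cf (D := N * D) ω m) k - ∑ k ∈ range x, Eo n l d (ch ψ ((j : ℝ) / (x : ℝ) ^ 2)) (cf (D := N * D) ω m) k)
    rwa [add_sub_cancel] at this
  refine h5.trans ?_
  have h6 : (nK : ℝ) * BD n l D d ≤ nK * S * (x : ℝ) ^ (1 / 2 + δ) := by
    calc (nK : ℝ) * BD n l D d ≤ nK * S := mul_le_mul_of_nonneg_left hSd2 (Nat.cast_nonneg _)
      _ ≤ _ := le_mul_of_one_le_right (by positivity) hx1δ
  calc _ ≤ 2 * (S * (Real.sqrt (nK + 1) * (x : ℝ) ^ (1 / 2 + δ))) + nK * S * (x : ℝ) ^ (1 / 2 + δ) := add_le_add hfin (hdiff.trans h6)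
    _ = _ := by ring

end

end Pool.Agent.N842.TQ
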