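import Pool.Agent.N842.TP.Fin
import Pool.Agent.N842.TQ.Ab

/-!
# The sums of the traces on the cohomology groups of odd degree over the prime ideals of degree one
-/

set_option autoImplicit false

namespace Pool.Agent.N842.TQ

open Finset NumberField IsDedekindDomain
open Pool.Agent.N842.SQ
open Pool.Agent.N842.TP
open Pool.Agent.N842.ST (kap kap_nonneg kap_le)
open Pool.Agent.N842.HS (hv VT mem_VT res_char prime_above norm_card absNorm_hv hom_finite hom_card cf sum_deg1 factNth genRW)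
open Pool.Agent.TH894.NF (pr pr_prime)
open Pool.Agent.Y57.FD (digit exceptions)
open Pool.Agent.Y57.FD.Mom (normal)

attribute [local instance] rsFin exFin

section
variable {N : ℕ} (n : Fin N → ℕ)

/-- the parity of the exponents -/
lemma cfm_parity (d : ℕ) (θ : Fin N → ℕ) (h : cfm n d θ ≠ 0) : Even (∑ c, θ c) ↔ Even d := by
  unfold cfm at h
  have e1 : ∏ c, (((n c).choose (θ c) : ℕ) : Polynomial ℝ) * Polynomial.X ^ θ c * (1 + Polynomial.X ^ 2) ^ (n c - θ c) =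
      Polynomial.X ^ (∑ c, θ c) * Polynomial.expand ℝ 2 (∏ c, (((n c).choose (θ c) : ℕ) : Polynomial ℝ) * (1 + Polynomial.X) ^ (n c - θ c)) := by
    rw [map_prod, ← prod_pow_eq_pow_sum, ← prod_mul_distrib]
    refine prod_congr rfl fun c _ => ?_
    simp only [map_mul, map_natCast, map_pow, map_add, map_one, Polynomial.expand_X]
    ring
  rw [e1, Polynomial.coeff_X_pow_mul'] at h
  split_ifs at h with h1
  · rw [Polynomial.coeff_expand (by norm_num)] at h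
    split_ifs at h with h2
    · rcases h2 with ⟨k, hk⟩
      constructor
      · rintro ⟨a, ha⟩
        exact ⟨a + k, by omega⟩
      · rintro ⟨a, ha⟩
        exact ⟨a - k, by omega⟩
    · exact absurd rfl h
  · exact absurd rfl h

lemma MG_odd (l : ℕ) (θ : Fin N → ℕ) (h : ¬ Even (∑ c, θ c)) (p : ℕ) : MG l N θ p = 0 := by
  have h1 : ∃ c, ¬ Even (θ c) := by
    by_contra hcon
    push Not at hcon
    exact h (Finset.even_sum _ fun c _ => hcon c)
  obtain ⟨c, hc⟩ := h1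
  unfold MG
  apply prod_eq_zero (mem_univ c)
  rw [nm_zero_mean]
  unfold normal
  rw [if_neg hc, zero_mul]

/-- a bound for the traces -/
noncomputable def BD (l D d : ℕ) : ℝ := ∑ θ ∈ Im n, |cfm n d θ| * ∏ c, B0 l D ^ θ c

lemma BD_nonneg (l : ℕ) (hl : l.Prime) (D d : ℕ) : 0 ≤ BD n l D d := by
  have hB := B0_ge l hl D
  exact sum_nonneg fun θ _ => mul_nonneg (abs_nonneg _) (by positivity)

end

section
variable {K : Type} [Field K] [NumberField K] {N : ℕ} (n : Fin N → ℕ)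

open Classical in
/-- the traces -/
noncomputable def To (l : ℕ) {D : ℕ} (d k : ℕ) (v : HeightOneSpectrum (𝓞 K)) (c : Fin (N * D) → 𝓞 K) : ℝ :=
  if good l v c then (Pl n (fun e => - A l D k (Rs v) (fun i : Fin D => rh v (c (finProdFinEquiv (e, i)))))).coeff d else 0

lemma To_le (l : ℕ) (hl : l.Prime) {D : ℕ} (hD : Nat.Coprime D l) (d k : ℕ) (hk : k ≠ 0) (v : HeightOneSpectrum (𝓞 K))
    (c : Fin (N * D) → 𝓞 K) : |To n l d k v c| ≤ BD n l D d := by
  unfold To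
  split_ifs with h
  · rw [Pl_coeff]
    unfold BD
    refine (abs_sum_le_sum_abs _ _).trans (sum_le_sum fun θ _ => ?_)
    rw [abs_mul]
    apply mul_le_mul_of_nonneg_left _ (abs_nonneg _)
    rw [abs_prod]
    refine prod_le_prod (fun e _ => abs_nonneg _) fun e _ => ?_
    rw [abs_pow, abs_neg]
    exact pow_le_pow_left₀ (abs_nonneg _) (A_le l hl D hD k hk (Rs v) _) _
  · rw [abs_zero]
    exact BD_nonneg n l hl D d

/-- the traces at the prime ideals of degree one -/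
lemma To_hv (l : ℕ) {D : ℕ} (d : ℕ) {p : ℕ} [hp : Fact p.Prime] (φ : 𝓞 K →+* ZMod p) (c : Fin (N * D) → 𝓞 K) :
    To n l d 1 (hv φ) c = ∑ θ ∈ Im n, cfm n d θ * GG l N D θ p (fun k => φ (c k)) := by
  classical
  obtain ⟨σ, hσ⟩ := hv_iso φ
  have hch := hv_char φ
  have h1 : ∀ e : Fin N, (((l : Rs (hv φ)) ≠ 0 ∧ (fp (Rs (hv φ)) (fun i : Fin D => rh (hv φ) (c (finProdFinEquiv (e, i))))).Separable) ↔
      ((l : ZMod p) ≠ 0 ∧ (fp (ZMod p) (fun i : Fin D => φ (c (finProdFinEquiv (e, i))))).Separable)) := by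
    intro e
    have h2 : (fp (ZMod p) (fun i : Fin D => φ (c (finProdFinEquiv (e, i))))) =
        (fp (Rs (hv φ)) (fun i : Fin D => rh (hv φ) (c (finProdFinEquiv (e, i))))).map (σ : Rs (hv φ) →+* ZMod p) := by
      rw [fp_map]
      unfold fp low
      congr 1
      refine sum_congr rfl fun i _ => ?_
      show Polynomial.C (φ (c (finProdFinEquiv (e, i)))) * Polynomial.X ^ (i : ℕ) =
        Polynomial.C (σ (rh (hv φ) (c (finProdFinEquiv (e, i))))) * Polynomial.X ^ (i : ℕ)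
      rw [hσ]
    rw [h2, Polynomial.separable_map, ← map_natCast (σ : Rs (hv φ) →+* ZMod p) l, Ne, Ne, map_eq_zero (σ : Rs (hv φ) →+* ZMod p)]
  have h3 : ∀ e : Fin N, A l D 1 (Rs (hv φ)) (fun i : Fin D => rh (hv φ) (c (finProdFinEquiv (e, i)))) =
      A l D 1 (ZMod p) (fun i : Fin D => φ (c (finProdFinEquiv (e, i)))) := by
    intro e
    rw [← A_iso l p (Rs (hv φ)) (ZMod p) σ]
    simp only [hσ]
  unfold To
  by_cases h : good l (hv φ) c
  · have h' : ∀ e : Fin N, ((l : ZMod p) ≠ 0 ∧ (fp (ZMod p) (fun i : Fin D => φ (c (finProdFinEquiv (e, i))))).Separable) := fun e => (h1 e).1 (h e)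
    rw [if_pos h, Pl_coeff]
    refine sum_congr rfl fun θ _ => ?_
    rw [GG_eq, if_pos h']
    simp only [h3]
  · have h' : ¬ ∀ e : Fin N, ((l : ZMod p) ≠ 0 ∧ (fp (ZMod p) (fun i : Fin D => φ (c (finProdFinEquiv (e, i))))).Separable) :=
      fun h2 => h fun e => (h1 e).2 (h2 e)
    rw [if_neg h]
    symm
    apply sum_eq_zero
    intro θ _
    rw [GG_eq, if_neg h', mul_zero]

/-- the twists -/
noncomputable def ch (ψ : HeightOneSpectrum (𝓞 K) → ℂ) (τ : ℝ) (v : HeightOneSpectrum (𝓞 K)) : ℂ :=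
  ψ v * Complex.exp (Complex.I * ((-(τ * Real.log (Ideal.absNorm v.asIdeal : ℕ)) : ℝ) : ℂ))

lemma ch_le {ψ : HeightOneSpectrum (𝓞 K) → ℂ} (hψ : ∀ v, ‖ψ v‖ ≤ 1) (τ : ℝ) (v : HeightOneSpectrum (𝓞 K)) : ‖ch ψ τ v‖ ≤ 1 := by
  unfold ch
  rw [norm_mul, Complex.norm_exp_I_mul_ofReal, mul_one]
  exact hψ v

lemma ch_diff {ψ : HeightOneSpectrum (𝓞 K) → ℂ} (hψ : ∀ v, ‖ψ v‖ ≤ 1) (τ t : ℝ) (v : HeightOneSpectrum (𝓞 K)) :
    ‖ch ψ τ v - ch ψ t v‖ ≤ |τ - t| * Real.log (Ideal.absNorm v.asIdeal : ℕ) := by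
  obtain ⟨L, hL⟩ : ∃ L : ℝ, L = Real.log (Ideal.absNorm v.asIdeal : ℕ) := ⟨_, rfl⟩
  have hL0 : 0 ≤ L := by
    rw [hL]
    exact Real.log_natCast_nonneg _
  unfold ch
  rw [← hL, ← mul_sub, norm_mul]
  have h1 : Complex.exp (Complex.I * ((-(τ * L) : ℝ) : ℂ)) - Complex.exp (Complex.I * ((-(t * L) : ℝ) : ℂ)) =
      Complex.exp (Complex.I * ((-(t * L) : ℝ) : ℂ)) * (Complex.exp (Complex.I * ((-((τ - t) * L) : ℝ) : ℂ)) - 1) := by
    rw [mul_sub, ← Complex.exp_add, mul_one]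
    congr 2
    push_cast
    ring
  have h2 : ‖Complex.exp (Complex.I * ((-((τ - t) * L) : ℝ) : ℂ)) - 1‖ ≤ |τ - t| * L := by
    refine (Real.norm_exp_I_mul_ofReal_sub_one_le).trans (le_of_eq ?_)
    rw [Real.norm_eq_abs, abs_neg, abs_mul, abs_of_nonneg hL0]
  rw [h1, norm_mul, Complex.norm_exp_I_mul_ofReal, one_mul]
  calc ‖ψ v‖ * ‖Complex.exp (Complex.I * ((-((τ - t) * L) : ℝ) : ℂ)) - 1‖ ≤ 1 * (|τ - t| * L) :=
        mul_le_mul (hψ v) h2 (norm_nonneg _) zero_le_one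
    _ = _ := one_mul _

/-- the sums over the prime ideals of degree one above the prime number with the number `j` -/
noncomputable def Eo (l : ℕ) {D : ℕ} (d : ℕ) (χ : HeightOneSpectrum (𝓞 K) → ℂ) (c : Fin (N * D) → 𝓞 K) (j : ℕ) : ℂ :=
  ∑ᶠ φ : (e : Fin 1) → (𝓞 K →+* ZMod (Nat.nth Nat.Prime (j + e))), χ (hv (φ 0)) * (To n l d 1 (hv (φ 0)) c : ℂ)

/-- the finiteness of the tuples -/
lemma tup_fin (K : Type) [Field K] [NumberField K] (k : ℕ) : Finite ((e : Fin 1) → (𝓞 K →+* ZMod (Nat.nth Nat.Prime (k + e)))) := by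
  have : ∀ e : Fin 1, Finite (𝓞 K →+* ZMod (Nat.nth Nat.Prime (k + e))) := fun e => hom_finite (𝓞 K) _
  exact Pi.finite

lemma tup_card (K : Type) [Field K] [NumberField K] (nK : ℕ) (hnK : ∀ (p : ℕ) [Fact p.Prime], Nat.card (𝓞 K →+* ZMod p) ≤ nK) (k : ℕ) :
    Nat.card ((e : Fin 1) → (𝓞 K →+* ZMod (Nat.nth Nat.Prime (k + e)))) ≤ nK := by
  have : ∀ e : Fin 1, Finite (𝓞 K →+* ZMod (Nat.nth Nat.Prime (k + e))) := fun e => hom_finite (𝓞 K) _
  rw [Nat.card_pi, Fin.prod_univ_one]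
  exact hnK _

lemma tup_bound {nK : ℕ} (hnK : ∀ (p : ℕ) [Fact p.Prime], Nat.card (𝓞 K →+* ZMod p) ≤ nK) (k : ℕ)
    (F : ((e : Fin 1) → (𝓞 K →+* ZMod (Nat.nth Nat.Prime (k + e)))) → ℂ) (B : ℝ) (hB : 0 ≤ B) (hF : ∀ φ, ‖F φ‖ ≤ B) : ‖∑ᶠ φ, F φ‖ ≤ nK * B := by
  have := tup_fin K k
  have : Fintype ((e : Fin 1) → (𝓞 K →+* ZMod (Nat.nth Nat.Prime (k + e)))) := Fintype.ofFinite _
  rw [finsum_eq_sum_of_fintype]
  refine (norm_sum_le _ _).trans ((sum_le_sum fun φ _ => hF φ).trans ?_)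
  rw [sum_const, card_univ, nsmul_eq_mul, ← Nat.card_eq_fintype_card]
  exact mul_le_mul_of_nonneg_right (by exact_mod_cast tup_card K nK hnK k) hB

lemma Eo_le (l : ℕ) (hl : l.Prime) {D : ℕ} (hD : Nat.Coprime D l) (d : ℕ) {χ : HeightOneSpectrum (𝓞 K) → ℂ} (hχ : ∀ v, ‖χ v‖ ≤ 1)
    {nK : ℕ} (hnK : ∀ (p : ℕ) [Fact p.Prime], Nat.card (𝓞 K →+* ZMod p) ≤ nK) (c : Fin (N * D) → 𝓞 K) (j : ℕ) :
    ‖Eo n l d χ c j‖ ≤ nK * BD n l D d := by
  unfold Eo
  apply tup_bound hnK j _ _ (BD_nonneg n l hl D d)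
  intro φ
  rw [norm_mul, Complex.norm_real, Real.norm_eq_abs]
  calc ‖χ (hv (φ 0))‖ * |To n l d 1 (hv (φ 0)) c| ≤ 1 * BD n l D d :=
        mul_le_mul (hχ _) (To_le n l hl hD d 1 one_ne_zero _ c) (abs_nonneg _) zero_le_one
    _ = _ := one_mul _

lemma pr_up (j : ℕ) : pr j ≤ 2 ^ (j + 1) := by
  induction j with
  | zero =>
    have : pr 0 = 2 := Nat.nth_prime_zero_eq_two
    omega
  | succ j ih =>
    obtain ⟨q, hq, hq1, hq2⟩ := Nat.exists_prime_lt_and_le_two_mul (pr j) (pr_prime j).ne_zero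
    have h1 : pr (j + 1) ≤ q := by
      by_contra hcon
      push Not at hcon
      have h3 : Nat.count Nat.Prime q ≤ j + 1 - 1 + 1 := by
        have h4 : Nat.count Nat.Prime q < Nat.count Nat.Prime (pr (j + 1)) := Nat.count_strict_mono hq hcon
        have h5 : Nat.count Nat.Prime (pr (j + 1)) = j + 1 := Nat.primeCounting'_nth_eq (j + 1)
        omega
      have h6 : Nat.count Nat.Prime (pr j) < Nat.count Nat.Prime q := Nat.count_strict_mono (pr_prime j) hq1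
      have h7 : Nat.count Nat.Prime (pr j) = j := Nat.primeCounting'_nth_eq j
      have h8 : Nat.count Nat.Prime q < Nat.count Nat.Prime (pr (j + 1)) := Nat.count_strict_mono hq hcon
      have h9 : Nat.count Nat.Prime (pr (j + 1)) = j + 1 := Nat.primeCounting'_nth_eq (j + 1)
      omega
    calc pr (j + 1) ≤ q := h1
      _ ≤ 2 * pr j := hq2
      _ ≤ 2 * 2 ^ (j + 1) := Nat.mul_le_mul_left _ ih
      _ = 2 ^ (j + 1 + 1) := by ring

lemma log_up (j x : ℕ) (hj : j < x) : Real.log (pr j) ≤ x := by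
  have h1 : Real.log (pr j) ≤ Real.log ((2 : ℝ) ^ (j + 1)) := by
    apply Real.log_le_log (pr_pos j)
    exact_mod_cast pr_up j
  rw [Real.log_pow] at h1
  have h2 := Real.log_two_lt_d9
  have h3 : ((j + 1 : ℕ) : ℝ) ≤ x := by exact_mod_cast hj
  have h4 : (0 : ℝ) ≤ ((j + 1 : ℕ) : ℝ) := Nat.cast_nonneg _
  nlinarith

end

end Pool.Agent.N842.TQ
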